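import Mathlib
import Pool.Agent.H93.AS.Defs

/-! # MP_1f2761_nt, k = 2: row TYA -/

set_option autoImplicit false

open Finset Filter Topology

namespace Pool.Agent.H93.AS

/-- numbers below `N` with a small residue -/
theorem card_mod_lt (N d g : ℕ) (_hd : 0 < d) :
    ((range N).filter fun M => M % d < g).card ≤ (N / d + 1) * g := by
  have h : ((range N).filter fun M => M % d < g).card ≤ (range (N / d + 1) ×ˢ range g).card := by
    apply card_le_card_of_injOn (fun M => (M / d, M % d))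
    · intro M hM
      have hM' : M ∈ (range N).filter (fun M => M % d < g) := hM
      rw [mem_filter, mem_range] at hM'
      have hmem : (M / d, M % d) ∈ range (N / d + 1) ×ˢ range g := by
        rw [mem_product, mem_range, mem_range]
        refine ⟨?_, hM'.2⟩
        have := Nat.div_le_div_right (c := d) hM'.1.le
        show M / d < N / d + 1
        omega
      exact hmem
    · intro M _ M' _ he
      simp only [Prod.mk.injEq] at he
      rw [← Nat.mod_add_div M d, ← Nat.mod_add_div M' d, he.1, he.2]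
  rwa [card_product, card_range, card_range] at h

theorem tya_pow (L : ℕ) (_hL : 0 < L) : L ^ 10 ≤ 2 ^ (10 * Nat.log 2 L + 10) := by
  have h1 : L < 2 ^ (Nat.log 2 L + 1) := Nat.lt_pow_succ_log_self (by norm_num) L
  calc L ^ 10 ≤ (2 ^ (Nat.log 2 L + 1)) ^ 10 := Nat.pow_le_pow_left h1.le 10
    _ = 2 ^ (10 * Nat.log 2 L + 10) := by
        rw [← pow_mul]
        congr 1
        ring

/-- many small residues give one at a high level -/
theorem tya_level {p g L M t : ℕ} (hp : 2 ≤ p) (h : t < Tp p g L M) :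
    ∃ i ≤ L, 2 ^ t * g < p ^ i ∧ M % p ^ i < g := by
  unfold Tp at h
  set F := (range (L + 1)).filter fun i => g < p ^ i ∧ M % p ^ i < g with hF
  have hne : F.Nonempty := card_pos.1 (by omega)
  have h1 := F.min'_mem hne
  have h2 := F.max'_mem hne
  have h3 : F.card ≤ F.max' hne + 1 - F.min' hne := by
    have hsub : F ⊆ Icc (F.min' hne) (F.max' hne) := by
      intro x hx
      rw [mem_Icc]
      exact ⟨F.min'_le x hx, F.le_max' x hx⟩
    have := card_le_card hsub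
    rwa [Nat.card_Icc] at this
  have h4 : F.min' hne ≤ F.max' hne := F.min'_le_max' hne
  have h5 : F.min' hne + t ≤ F.max' hne := by omega
  have h1' := mem_filter.1 h1
  have h2' := mem_filter.1 h2
  have h2'' := mem_range.1 h2'.1
  refine ⟨F.max' hne, by omega, ?_, h2'.2.2⟩
  calc 2 ^ t * g ≤ p ^ t * g := Nat.mul_le_mul_right _ (Nat.pow_le_pow_left hp t)
    _ < p ^ t * p ^ F.min' hne := by
        exact Nat.mul_lt_mul_of_pos_left h1'.2.1 (by positivity)
    _ = p ^ (F.min' hne + t) := by rw [← pow_add, add_comm]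
    _ ≤ p ^ F.max' hne := Nat.pow_le_pow_right (by omega) h5

theorem tya_count {L g : ℕ} (hL : 1 ≤ L) (hg : g ≤ L) :
    (((range (2 ^ L)).filter fun M => ∃ p ≤ L ^ 4, p.Prime ∧
      10 * Nat.log 2 L + 10 < Tp p g L M).card : ℝ) ≤
      L + (L ^ 4 + 1) * (L + 1) * (2 * (2 ^ L / L ^ 10)) := by
  set t := 10 * Nat.log 2 L + 10 with ht
  let E : ℕ × ℕ → Finset ℕ := fun q => if 2 ^ t * g < q.1 ^ q.2 ∧ q.1 ^ q.2 ≤ 2 ^ L ∧ 0 < q.1 ^ q.2 then
    (range (2 ^ L)).filter fun M => M % q.1 ^ q.2 < g else ∅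
  have hsub : ((range (2 ^ L)).filter fun M => ∃ p ≤ L ^ 4, p.Prime ∧ t < Tp p g L M) ⊆
      range g ∪ (range (L ^ 4 + 1) ×ˢ range (L + 1)).biUnion E := by
    intro M hM
    rw [mem_filter, mem_range] at hM
    obtain ⟨hM, p, hpL, hp, hT⟩ := hM
    obtain ⟨i, hi, h1, h2⟩ := tya_level hp.two_le hT
    rw [mem_union]
    by_cases h3 : p ^ i ≤ 2 ^ L
    · right
      rw [mem_biUnion]
      refine ⟨(p, i), ?_, ?_⟩
      · rw [mem_product, mem_range, mem_range]
        exact ⟨by show p < L ^ 4 + 1; omega, by show i < L + 1; omega⟩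
      · show M ∈ E (p, i)
        have hc : 2 ^ t * g < p ^ i ∧ p ^ i ≤ 2 ^ L ∧ 0 < p ^ i := ⟨h1, h3, by omega⟩
        show M ∈ (if 2 ^ t * g < p ^ i ∧ p ^ i ≤ 2 ^ L ∧ 0 < p ^ i then
          (range (2 ^ L)).filter fun M => M % p ^ i < g else ∅)
        rw [if_pos hc, mem_filter, mem_range]
        exact ⟨hM, h2⟩
    · left
      rw [mem_range]
      rwa [Nat.mod_eq_of_lt (by omega)] at h2
  have hLr : (1 : ℝ) ≤ L := by exact_mod_cast hL
  have hE : ∀ q ∈ range (L ^ 4 + 1) ×ˢ range (L + 1), ((E q).card : ℝ) ≤ 2 * (2 ^ L / L ^ 10) := by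
    intro q _
    have hnn : (0 : ℝ) ≤ 2 * (2 ^ L / L ^ 10) := by positivity
    by_cases hc : 2 ^ t * g < q.1 ^ q.2 ∧ q.1 ^ q.2 ≤ 2 ^ L ∧ 0 < q.1 ^ q.2
    · have hEq : E q = (range (2 ^ L)).filter fun M => M % q.1 ^ q.2 < g := by
        show (if 2 ^ t * g < q.1 ^ q.2 ∧ q.1 ^ q.2 ≤ 2 ^ L ∧ 0 < q.1 ^ q.2 then
          (range (2 ^ L)).filter fun M => M % q.1 ^ q.2 < g else ∅) = _
        rw [if_pos hc]
      rw [hEq]
      obtain ⟨c1, c2, c3⟩ := hc
      set d := q.1 ^ q.2 with hd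
      have h1 := card_mod_lt (2 ^ L) d g c3
      have h2 : (((range (2 ^ L)).filter fun M => M % d < g).card : ℝ) ≤
          (((2 ^ L / d : ℕ) : ℝ) + 1) * g := by exact_mod_cast h1
      have h3 : ((2 ^ L / d : ℕ) : ℝ) ≤ 2 ^ L / d := by
        have := @Nat.cast_div_le ℝ _ _ _ (2 ^ L) d
        push_cast at this
        exact this
      have hd0 : (0 : ℝ) < d := by exact_mod_cast c3
      have h4 : (1 : ℝ) ≤ 2 ^ L / d := by
        rw [le_div_iff₀ hd0, one_mul]
        exact_mod_cast c2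
      have h5 : (L : ℝ) ^ 10 * g ≤ d := by
        have h6 : L ^ 10 * g ≤ d := (Nat.mul_le_mul_right g (tya_pow L hL)).trans c1.le
        exact_mod_cast h6
      have hL10 : (0 : ℝ) < (L : ℝ) ^ 10 := by positivity
      calc (((range (2 ^ L)).filter fun M => M % d < g).card : ℝ)
          ≤ (((2 ^ L / d : ℕ) : ℝ) + 1) * g := h2
        _ ≤ (2 ^ L / d + 2 ^ L / d) * g := by gcongr
        _ = 2 * (2 ^ L * (g / d)) := by ring
        _ ≤ 2 * (2 ^ L * (1 / L ^ 10)) := by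
            have h7 : (g : ℝ) / d ≤ 1 / L ^ 10 := by
              rw [div_le_div_iff₀ hd0 hL10]
              linarith
            gcongr
        _ = _ := by ring
    · have hEq : E q = ∅ := by
        show (if 2 ^ t * g < q.1 ^ q.2 ∧ q.1 ^ q.2 ≤ 2 ^ L ∧ 0 < q.1 ^ q.2 then
          (range (2 ^ L)).filter fun M => M % q.1 ^ q.2 < g else ∅) = _
        rw [if_neg hc]
      rw [hEq, card_empty]
      simpa using hnn
  have h1 : ((((range (2 ^ L)).filter fun M => ∃ p ≤ L ^ 4, p.Prime ∧ t < Tp p g L M).card : ℕ) : ℝ) ≤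
      g + ∑ q ∈ range (L ^ 4 + 1) ×ˢ range (L + 1), ((E q).card : ℝ) := by
    have h2 := card_le_card hsub
    have h3 := card_union_le (range g) ((range (L ^ 4 + 1) ×ˢ range (L + 1)).biUnion E)
    have h4 : ((range (L ^ 4 + 1) ×ˢ range (L + 1)).biUnion E).card ≤
        ∑ q ∈ range (L ^ 4 + 1) ×ˢ range (L + 1), (E q).card := card_biUnion_le
    rw [card_range] at h3
    have h5 : ((range (2 ^ L)).filter fun M => ∃ p ≤ L ^ 4, p.Prime ∧ t < Tp p g L M).card ≤
      g + ∑ q ∈ range (L ^ 4 + 1) ×ˢ range (L + 1), (E q).card := by omega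
    exact_mod_cast h5
  have h6 := sum_le_card_nsmul _ _ _ hE
  rw [card_product, card_range, card_range, nsmul_eq_mul] at h6
  push_cast at h6
  have hgL : (g : ℝ) ≤ L := by exact_mod_cast hg
  linarith

theorem tya : TYAStmt := by
  intro δ hδ
  have hev : ∀ᶠ L : ℕ in atTop, (L : ℝ) + (L ^ 4 + 1) * (L + 1) * (2 * (2 ^ L / L ^ 10)) ≤ δ * 2 ^ L := by
    have e1 : Tendsto (fun L : ℕ => (L : ℝ)) atTop atTop := tendsto_natCast_atTop_atTop
    have e2 : ∀ᶠ L : ℕ in atTop, max 1 (10 / δ) ≤ (L : ℝ) := e1.eventually_ge_atTop _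
    have e3 : Tendsto (fun L : ℕ => (L : ℝ) ^ 1 / (2 : ℝ) ^ L) atTop (𝓝 0) := by
      exact tendsto_pow_const_div_const_pow_of_one_lt 1 (by norm_num)
    have e4 : ∀ᶠ L : ℕ in atTop, (L : ℝ) ^ 1 / (2 : ℝ) ^ L < δ / 10 :=
      e3.eventually (gt_mem_nhds (by positivity))
    filter_upwards [e2, e4] with L h2 h4
    have hL1 : (1 : ℝ) ≤ L := (le_max_left _ _).trans h2
    have hLd : 10 / δ ≤ (L : ℝ) := (le_max_right _ _).trans h2
    have h2L : (0 : ℝ) < 2 ^ L := by positivity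
    rw [pow_one, div_lt_iff₀ h2L] at h4
    have h5 : ((L : ℝ) ^ 4 + 1) * (L + 1) * (2 * (2 ^ L / L ^ 10)) ≤ 8 / (L : ℝ) * 2 ^ L := by
      have hL0 : (0 : ℝ) < L := by linarith
      have h6 : (L : ℝ) ^ 4 + 1 ≤ 2 * L ^ 4 := by
        have := one_le_pow₀ hL1 (n := 4)
        linarith
      have h7 : (L : ℝ) + 1 ≤ 2 * L := by linarith
      calc ((L : ℝ) ^ 4 + 1) * (L + 1) * (2 * (2 ^ L / L ^ 10))
          ≤ (2 * L ^ 4) * (2 * L) * (2 * (2 ^ L / L ^ 10)) := by gcongr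
        _ = 8 / (L : ℝ) ^ 5 * 2 ^ L := by field_simp; ring
        _ ≤ 8 / (L : ℝ) * 2 ^ L := by
            have h8 : (L : ℝ) ≤ L ^ 5 := by
              calc (L : ℝ) = L ^ 1 := (pow_one _).symm
                _ ≤ L ^ 5 := pow_le_pow_right₀ hL1 (by norm_num)
            gcongr
    have h9 : 8 / (L : ℝ) ≤ 8 / 10 * δ := by
      have hL0 : (0 : ℝ) < L := by linarith
      rw [div_le_iff₀ hL0]
      rw [div_le_iff₀ hδ] at hLd
      nlinarith
    have h10 : 8 / (L : ℝ) * 2 ^ L ≤ 8 / 10 * δ * 2 ^ L := by gcongr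
    nlinarith
  obtain ⟨L₀, hL₀⟩ := eventually_atTop.1 hev
  refine ⟨max L₀ 1, fun L hL g hg => ?_⟩
  have h1 : 1 ≤ L := (le_max_right _ _).trans hL
  exact (tya_count h1 hg).trans (hL₀ L ((le_max_left _ _).trans hL))

end Pool.Agent.H93.AS
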