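import Mathlib
import Pool.Agent.H93.AS.Defs

/-! # MP_1f2761_nt, k = 2: row TYB -/

set_option autoImplicit false

open Finset Filter Topology

namespace Pool.Agent.H93.AS

open Pool.Agent.H27.Fact

/-- residues of `M < N` modulo `p ^ e` with large digit sum -/
theorem card_high_mod {p e N : ℕ} (hp : 2 ≤ p) {ε : ℝ} (hε : 0 ≤ ε) (heN : p ^ e ≤ N) :
    (((range N).filter (fun n => (1 / 2 + ε) * (p - 1) * e ≤ (sp p (n % p ^ e) : ℝ))).card : ℝ) ≤
      2 * N * Real.exp (-(2 * ε ^ 2 * e)) := by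
  have hpe : 0 < p ^ e := by positivity
  set LA := (range (p ^ e)).filter (fun y => (1 / 2 + ε) * (p - 1) * e ≤ (sp p y : ℝ)) with hLA
  have h : ((range N).filter (fun n => (1 / 2 + ε) * (p - 1) * e ≤
      (sp p (n % p ^ e) : ℝ))).card ≤ (LA ×ˢ range (N / p ^ e + 1)).card := by
    apply card_le_card_of_injOn (fun n => (n % p ^ e, n / p ^ e))
    · intro n hn
      have hn' : n ∈ (range N).filter (fun n => (1 / 2 + ε) * (p - 1) * e ≤
        (sp p (n % p ^ e) : ℝ)) := hn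
      rw [mem_filter, mem_range] at hn'
      have hmem : (n % p ^ e, n / p ^ e) ∈ LA ×ˢ range (N / p ^ e + 1) := by
        rw [mem_product, hLA, mem_filter, mem_range, mem_range]
        refine ⟨⟨Nat.mod_lt _ hpe, hn'.2⟩, ?_⟩
        have := Nat.div_le_div_right (c := p ^ e) hn'.1.le
        show n / p ^ e < N / p ^ e + 1
        omega
      exact hmem
    · intro n _ n' _ he
      simp only [Prod.mk.injEq] at he
      rw [← Nat.mod_add_div n (p ^ e), ← Nat.mod_add_div n' (p ^ e), he.1, he.2]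
  rw [card_product, card_range] at h
  have h6 : ((((range N).filter (fun n => (1 / 2 + ε) * (p - 1) * e ≤
      (sp p (n % p ^ e) : ℝ))).card : ℕ) : ℝ) ≤ LA.card * ((N / p ^ e : ℕ) + 1) := by
    exact_mod_cast h
  have h7 := card_high hp (ε := ε) e hε
  have h8 : ((N / p ^ e : ℕ) : ℝ) ≤ N / p ^ e := by
    have := @Nat.cast_div_le ℝ _ _ _ N (p ^ e)
    push_cast at this
    exact this
  have h9 : (p : ℝ) ^ e ≤ N := by exact_mod_cast heN
  have hpe' : (0 : ℝ) < (p : ℝ) ^ e := by exact_mod_cast hpe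
  refine h6.trans ?_
  calc (LA.card : ℝ) * ((N / p ^ e : ℕ) + 1)
      ≤ (p ^ e * Real.exp (-(2 * ε ^ 2 * e))) * (N / p ^ e + 1) := by gcongr
    _ = (N + p ^ e) * Real.exp (-(2 * ε ^ 2 * e)) := by field_simp
    _ ≤ (N + N) * Real.exp (-(2 * ε ^ 2 * e)) := by gcongr
    _ = _ := by ring

open Classical in
theorem tyb_count {P₀ L B J : ℕ} (hBL : B ≤ L)
    (hJ : ∀ p, p.Prime → p ≤ L ^ 4 → J ≤ Nat.log p (2 ^ B)) :
    (((range (2 ^ L)).filter fun M => ¬ TypD P₀ L B M).card : ℝ) ≤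
      (L ^ 4 + 1) * (2 * 2 ^ L * Real.exp (-(2 * (1 / 20 : ℝ) ^ 2 * J))) := by
  let E : ℕ → Finset ℕ := fun p => if p.Prime ∧ p ≤ L ^ 4 then
    (range (2 ^ L)).filter (fun n => (1 / 2 + 1 / 20 : ℝ) * (p - 1) * (Nat.log p (2 ^ B) : ℕ) ≤
      (sp p (n % p ^ Nat.log p (2 ^ B)) : ℝ)) else ∅
  have hsub : ((range (2 ^ L)).filter fun M => ¬ TypD P₀ L B M) ⊆
      (range (L ^ 4 + 1)).biUnion E := by
    intro M hM
    rw [mem_filter] at hM
    obtain ⟨hM, hT⟩ := hM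
    unfold TypD at hT
    push Not at hT
    obtain ⟨p, hp, _, hpL, hs⟩ := hT
    rw [mem_biUnion]
    refine ⟨p, by rw [mem_range]; omega, ?_⟩
    show M ∈ (if p.Prime ∧ p ≤ L ^ 4 then
      (range (2 ^ L)).filter (fun n => (1 / 2 + 1 / 20 : ℝ) * (p - 1) * (Nat.log p (2 ^ B) : ℕ) ≤
        (sp p (n % p ^ Nat.log p (2 ^ B)) : ℝ)) else ∅)
    rw [if_pos ⟨hp, hpL⟩, mem_filter]
    exact ⟨hM, hs.le⟩
  have hE : ∀ p ∈ range (L ^ 4 + 1), ((E p).card : ℝ) ≤
      2 * 2 ^ L * Real.exp (-(2 * (1 / 20 : ℝ) ^ 2 * J)) := by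
    intro p _
    by_cases hc : p.Prime ∧ p ≤ L ^ 4
    · have hEp : E p = (range (2 ^ L)).filter (fun n => (1 / 2 + 1 / 20 : ℝ) * (p - 1) *
          (Nat.log p (2 ^ B) : ℕ) ≤ (sp p (n % p ^ Nat.log p (2 ^ B)) : ℝ)) := by
        show (if p.Prime ∧ p ≤ L ^ 4 then _ else ∅) = _
        rw [if_pos hc]
      rw [hEp]
      have h1 : p ^ Nat.log p (2 ^ B) ≤ 2 ^ L :=
        (Nat.pow_log_le_self p (by positivity)).trans (Nat.pow_le_pow_right (by norm_num) hBL)
      have h2 := card_high_mod (N := 2 ^ L) hc.1.two_le (ε := 1 / 20) (by norm_num) h1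
      have h3 : (J : ℝ) ≤ (Nat.log p (2 ^ B) : ℕ) := by exact_mod_cast hJ p hc.1 hc.2
      refine h2.trans ?_
      push_cast
      have h4 : Real.exp (-(2 * (1 / 20 : ℝ) ^ 2 * (Nat.log p (2 ^ B) : ℕ))) ≤
          Real.exp (-(2 * (1 / 20 : ℝ) ^ 2 * J)) := by
        apply Real.exp_le_exp.2
        nlinarith
      exact mul_le_mul_of_nonneg_left h4 (by positivity)
    · have hEp : E p = ∅ := by
        show (if p.Prime ∧ p ≤ L ^ 4 then _ else ∅) = _
        rw [if_neg hc]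
      rw [hEp, card_empty]
      have : (0 : ℝ) ≤ 2 * 2 ^ L * Real.exp (-(2 * (1 / 20 : ℝ) ^ 2 * J)) := by positivity
      simpa using this
  have h1 : ((((range (2 ^ L)).filter fun M => ¬ TypD P₀ L B M).card : ℕ) : ℝ) ≤
      ∑ p ∈ range (L ^ 4 + 1), ((E p).card : ℝ) := by
    have h2 := (card_le_card hsub).trans card_biUnion_le
    exact_mod_cast h2
  have h6 := sum_le_card_nsmul _ _ _ hE
  rw [card_range, nsmul_eq_mul] at h6
  push_cast at h6
  linarith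

theorem tyb_ev (C c : ℝ) (hc : 0 < c) (δ : ℝ) (hδ : 0 < δ) : ∀ᶠ L : ℕ in atTop,
    ((L : ℝ) ^ 4 + 1) * (2 * Real.exp (C - c * (L / Real.log L))) ≤ δ := by
  have e1 : Tendsto (fun L : ℕ => (L : ℝ)) atTop atTop := tendsto_natCast_atTop_atTop
  -- log L ^ 2 / L -> 0
  have e2 : Tendsto (fun y : ℝ => Real.log y ^ 2 / y) atTop (𝓝 0) := by
    have := (isLittleO_log_rpow_atTop (r := 1 / 2) (by norm_num)).pow (n := 2) (by norm_num)
    have h3 : (fun y : ℝ => Real.log y ^ 2) =o[atTop] fun y : ℝ => y := by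
      refine this.congr' (Eventually.of_forall fun y => rfl) ?_
      filter_upwards [eventually_gt_atTop 0] with y hy
      rw [← Real.rpow_natCast, ← Real.rpow_mul hy.le]
      norm_num
    exact h3.tendsto_div_nhds_zero
  have e3 := (e2.comp e1).eventually (gt_mem_nhds (show (0 : ℝ) < c / 6 by positivity))
  have e4 : ∀ᶠ L : ℕ in atTop, max 3 (4 * Real.exp C / δ) ≤ (L : ℝ) := e1.eventually_ge_atTop _
  filter_upwards [e3, e4] with L h3 h4
  have hL3 : (3 : ℝ) ≤ L := (le_max_left _ _).trans h4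
  have hLd : 4 * Real.exp C / δ ≤ (L : ℝ) := (le_max_right _ _).trans h4
  have hL0 : (0 : ℝ) < L := by linarith
  have hlog1 : 1 ≤ Real.log L := by
    rw [Real.le_log_iff_exp_le hL0]
    exact Real.exp_one_lt_three.le.trans hL3
  have hlog0 : 0 < Real.log L := by linarith
  have h5 : Real.log L ^ 2 / L < c / 6 := h3
  rw [div_lt_iff₀ hL0] at h5
  have h6 : 6 * Real.log L ≤ c * (L / Real.log L) := by
    rw [mul_div_assoc', le_div_iff₀ hlog0]
    nlinarith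
  have h7 : Real.exp (C - c * (L / Real.log L)) ≤ Real.exp C / L ^ 6 := by
    have h8 : Real.exp (6 * Real.log L) = (L : ℝ) ^ 6 := by
      rw [show (6 : ℝ) * Real.log L = ((6 : ℕ) : ℝ) * Real.log L by norm_num, Real.exp_nat_mul,
        Real.exp_log hL0]
    rw [← h8, ← Real.exp_sub]
    apply Real.exp_le_exp.2
    linarith
  have hL1 : (1 : ℝ) ≤ L := by linarith
  have h9 : (L : ℝ) ^ 4 + 1 ≤ 2 * L ^ 4 := by
    have := one_le_pow₀ hL1 (n := 4)
    linarith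
  calc ((L : ℝ) ^ 4 + 1) * (2 * Real.exp (C - c * (L / Real.log L)))
      ≤ (2 * L ^ 4) * (2 * (Real.exp C / L ^ 6)) := by gcongr
    _ = 4 * Real.exp C / L ^ 2 := by field_simp; ring
    _ ≤ 4 * Real.exp C / L := by
        have : (L : ℝ) ≤ L ^ 2 := by nlinarith
        gcongr
    _ ≤ δ := by
        rw [div_le_iff₀ hL0]
        rw [div_le_iff₀ hδ] at hLd
        linarith

theorem tyb : TYBStmt := by
  intro θ hθ δ hδ P₀
  have hl2 : 0 < Real.log 2 := Real.log_pos (by norm_num)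
  obtain ⟨c, hc⟩ : ∃ c : ℝ, c = 2 * (1 / 20) ^ 2 * (θ * Real.log 2 / 4) := ⟨_, rfl⟩
  have hc0 : 0 < c := by rw [hc]; positivity
  obtain ⟨L₀, hL₀⟩ := eventually_atTop.1 (tyb_ev (2 * (1 / 20) ^ 2) c hc0 δ hδ)
  refine ⟨max L₀ 2, fun L hL B hBL hB => ?_⟩
  have hL2 : 2 ≤ L := (le_max_right _ _).trans hL
  have hev := hL₀ L ((le_max_left _ _).trans hL)
  have hLr : (2 : ℝ) ≤ L := by exact_mod_cast hL2
  have hlog : 0 < Real.log L := Real.log_pos (by linarith)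
  obtain ⟨J, hJ⟩ : ∃ J : ℕ, J = Nat.log (L ^ 4) (2 ^ B) := ⟨_, rfl⟩
  have h1 : ∀ p, p.Prime → p ≤ L ^ 4 → J ≤ Nat.log p (2 ^ B) := by
    intro p hp hpL
    rw [hJ]
    exact Nat.log_anti_left hp.one_lt hpL
  have h2 := tyb_count (P₀ := P₀) hBL h1
  have hL4 : 1 < L ^ 4 := Nat.one_lt_pow (by norm_num) (by omega)
  have h3 : (B : ℝ) * Real.log 2 ≤ (J + 1) * (4 * Real.log L) := by
    have h4 : 2 ^ B < (L ^ 4) ^ (J + 1) := by
      rw [hJ]
      exact Nat.lt_pow_succ_log_self hL4 _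
    have h5 : (2 : ℝ) ^ B ≤ ((L : ℝ) ^ 4) ^ (J + 1) := by exact_mod_cast h4.le
    have h6 := Real.log_le_log (by positivity) h5
    rw [Real.log_pow, Real.log_pow, Real.log_pow] at h6
    push_cast at h6
    exact h6
  have h7 : θ * Real.log 2 / 4 * (L / Real.log L) - 1 ≤ J := by
    have h8 : θ * L * Real.log 2 ≤ (J + 1) * (4 * Real.log L) :=
      (mul_le_mul_of_nonneg_right hB hl2.le).trans h3
    have h9 : θ * Real.log 2 / 4 * (L / Real.log L) ≤ J + 1 := by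
      rw [mul_div_assoc', div_le_iff₀ hlog]
      linarith
    linarith
  have h10 : Real.exp (-(2 * (1 / 20 : ℝ) ^ 2 * J)) ≤
      Real.exp (2 * (1 / 20) ^ 2 - c * (L / Real.log L)) := by
    apply Real.exp_le_exp.2
    rw [hc]
    nlinarith
  refine h2.trans ?_
  calc ((L : ℝ) ^ 4 + 1) * (2 * 2 ^ L * Real.exp (-(2 * (1 / 20 : ℝ) ^ 2 * J)))
      ≤ (L ^ 4 + 1) * (2 * 2 ^ L * Real.exp (2 * (1 / 20) ^ 2 - c * (L / Real.log L))) := by
        gcongr
    _ = (((L : ℝ) ^ 4 + 1) * (2 * Real.exp (2 * (1 / 20) ^ 2 - c * (L / Real.log L)))) * 2 ^ L := by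
        ring
    _ ≤ δ * 2 ^ L := by gcongr

end Pool.Agent.H93.AS
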